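import Pool.Agent.Q163.ND.Mat

set_option autoImplicit false

/-!
# Even words, and the correlations
-/

namespace Pool.Agent.Q163.ND

open Finset Filter Topology

/-- multiplicities -/
def ct {q n : ℕ} (w w' : Fin q → Fin n) (h : Fin n) : ℕ :=
  (univ.filter fun i => w i = h).card + (univ.filter fun i => w' i = h).card

/-- the even pairs of words -/
def EvS (n q : ℕ) : Finset ((Fin q → Fin n) × (Fin q → Fin n)) :=
  univ.filter fun t => ∀ h, Even (ct t.1 t.2 h)

lemma prod_word {q n : ℕ} (σ : Fin n → ℝ) (w : Fin q → Fin n) :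
    ∏ i, σ (w i) = ∏ h, σ h ^ (univ.filter fun i => w i = h).card := by
  classical
  rw [← Finset.prod_fiberwise_of_maps_to (s := univ) (t := univ) (g := w) (fun _ _ => mem_univ _)]
  refine prod_congr rfl fun h _ => ?_
  rw [prod_congr rfl (g := fun _ => σ h) (fun i hi => by rw [(mem_filter.1 hi).2]), prod_const]

lemma prod_two {q n : ℕ} (σ : Fin n → ℝ) (w w' : Fin q → Fin n) :
    (∏ i, σ (w i)) * ∏ i, σ (w' i) = ∏ h, σ h ^ ct w w' h := by
  rw [prod_word, prod_word, ← prod_mul_distrib]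
  refine prod_congr rfl fun h _ => ?_
  unfold ct
  rw [pow_add]

/-- the sign -/
def sn (b : Bool) : ℝ := if b then 1 else -1

lemma sum_sn (c : ℕ) : ∑ b : Bool, sn b ^ c = 1 + (-1) ^ c := by
  rw [Fintype.sum_bool]
  simp [sn]

lemma sum_signs {n : ℕ} (F : Fin n → Bool → ℝ) :
    ∑ ε : Fin n → Bool, ∏ h, F h (ε h) = ∏ h, ∑ b : Bool, F h b := by
  rw [Finset.prod_univ_sum, Fintype.piFinset_univ]

lemma even_count (n q : ℕ) : (2 : ℝ) ^ n * (EvS n q).card ≤
    ∑ ε : Fin n → Bool, (∑ h, sn (ε h)) ^ (2 * q) := by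
  have e1 : ∑ ε : Fin n → Bool, (∑ h, sn (ε h)) ^ (2 * q) =
      ∑ t : (Fin q → Fin n) × (Fin q → Fin n), ∏ h, (1 + (-1 : ℝ) ^ ct t.1 t.2 h) := by
    have e2 : ∀ ε : Fin n → Bool, (∑ h, sn (ε h)) ^ (2 * q) =
        ∑ t : (Fin q → Fin n) × (Fin q → Fin n), ∏ h, sn (ε h) ^ ct t.1 t.2 h := by
      intro ε
      rw [mul_comm, pow_mul, Fintype.sum_pow, sq, sum_mul_sum, Fintype.sum_prod_type]
      refine sum_congr rfl fun w _ => sum_congr rfl fun w' _ => ?_
      exact prod_two (fun h => sn (ε h)) w w'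
    simp_rw [e2]
    rw [sum_comm]
    refine sum_congr rfl fun t _ => ?_
    rw [sum_signs (fun h b => sn b ^ ct t.1 t.2 h)]
    exact prod_congr rfl fun h _ => sum_sn _
  rw [e1]
  have e3 : ∀ t : (Fin q → Fin n) × (Fin q → Fin n), 0 ≤ ∏ h, (1 + (-1 : ℝ) ^ ct t.1 t.2 h) := by
    intro t
    refine prod_nonneg fun h _ => ?_
    rcases neg_one_pow_eq_or ℝ (ct t.1 t.2 h) with h1 | h1 <;> rw [h1] <;> norm_num
  calc (2 : ℝ) ^ n * (EvS n q).card = ∑ t ∈ EvS n q, (2 : ℝ) ^ n := by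
        rw [sum_const, nsmul_eq_mul, mul_comm]
    _ = ∑ t ∈ EvS n q, ∏ h, (1 + (-1 : ℝ) ^ ct t.1 t.2 h) := by
        refine sum_congr rfl fun t ht => ?_
        have h1 := (mem_filter.1 ht).2
        rw [prod_congr rfl (g := fun _ => (2 : ℝ)) (fun h _ => by rw [(h1 h).neg_one_pow]; norm_num),
          prod_const, card_univ, Fintype.card_fin]
    _ ≤ _ := sum_le_sum_of_subset_of_nonneg (filter_subset _ _) fun t _ _ => e3 t

lemma exp_signs (n : ℕ) (l : ℝ) : ∑ ε : Fin n → Bool, Real.exp (l * ∑ h, sn (ε h)) ≤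
    2 ^ n * Real.exp (l ^ 2 * n / 2) := by
  have e1 : ∀ ε : Fin n → Bool, Real.exp (l * ∑ h, sn (ε h)) = ∏ h, Real.exp (l * sn (ε h)) := by
    intro ε
    rw [mul_sum, Real.exp_sum]
  simp_rw [e1]
  rw [sum_signs (fun _ b => Real.exp (l * sn b)), prod_const, card_univ, Fintype.card_fin]
  have e2 : ∑ b : Bool, Real.exp (l * sn b) = 2 * Real.cosh l := by
    rw [Fintype.sum_bool, Real.cosh_eq]
    simp [sn]
    ring
  rw [e2, mul_pow]
  refine mul_le_mul_of_nonneg_left ?_ (by positivity)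
  calc Real.cosh l ^ n ≤ Real.exp (l ^ 2 / 2) ^ n :=
        pow_le_pow_left₀ (Real.cosh_pos l).le (Real.cosh_le_exp_half_sq l) n
    _ = Real.exp (l ^ 2 * n / 2) := by
        rw [← Real.exp_nat_mul]
        congr 1
        ring

/-- **The number of even pairs of words.** -/
theorem even_le (n q : ℕ) (hn : 1 ≤ n) (hq : 1 ≤ q) :
    ((EvS n q).card : ℝ) ≤ 2 * (2 * q * n * Real.exp 1) ^ q := by
  have hn0 : (0 : ℝ) < n := by exact_mod_cast hn
  have hq0 : (0 : ℝ) < q := by exact_mod_cast hq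
  set l := Real.sqrt (2 * q / n) with hl
  have hl2 : l ^ 2 = 2 * q / n := Real.sq_sqrt (by positivity)
  have hl0 : 0 < l := Real.sqrt_pos.2 (by positivity)
  have h1 : ∀ x : ℝ, (l * x) ^ (2 * q) ≤ (2 * q).factorial * (Real.exp (l * x) + Real.exp (-l * x)) := by
    intro x
    have e1 : (l * x) ^ (2 * q) = |l * x| ^ (2 * q) := by
      rw [Even.pow_abs (even_two_mul q)]
    have e2 := Real.pow_div_factorial_le_exp |l * x| (abs_nonneg _) (2 * q)
    have hf : (0 : ℝ) < (2 * q).factorial := by exact_mod_cast Nat.factorial_pos _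
    rw [div_le_iff₀ hf] at e2
    rw [e1]
    refine e2.trans ?_
    rw [mul_comm]
    refine mul_le_mul_of_nonneg_left ?_ hf.le
    rcases abs_choice (l * x) with h | h
    · rw [h]
      linarith [Real.exp_pos (-l * x)]
    · rw [h]
      have : -(l * x) = -l * x := by ring
      rw [this]
      linarith [Real.exp_pos (l * x)]
  have h2 : l ^ (2 * q) * ∑ ε : Fin n → Bool, (∑ h, sn (ε h)) ^ (2 * q) ≤
      (2 * q).factorial * (2 * (2 ^ n * Real.exp (l ^ 2 * n / 2))) := by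
    rw [mul_sum]
    calc ∑ ε : Fin n → Bool, l ^ (2 * q) * (∑ h, sn (ε h)) ^ (2 * q)
        ≤ ∑ ε : Fin n → Bool, (2 * q).factorial * (Real.exp (l * ∑ h, sn (ε h)) +
            Real.exp (-l * ∑ h, sn (ε h))) := by
          refine sum_le_sum fun ε _ => ?_
          rw [← mul_pow]
          exact h1 _
      _ = (2 * q).factorial * (∑ ε : Fin n → Bool, Real.exp (l * ∑ h, sn (ε h)) +
            ∑ ε : Fin n → Bool, Real.exp (-l * ∑ h, sn (ε h))) := by
          rw [← mul_sum, sum_add_distrib]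
      _ ≤ _ := by
          refine mul_le_mul_of_nonneg_left ?_ (Nat.cast_nonneg _)
          have a1 := exp_signs n l
          have a2 := exp_signs n (-l)
          rw [neg_sq] at a2
          linarith
  have h3 : l ^ (2 * q) * ((2 : ℝ) ^ n * (EvS n q).card) ≤
      (2 * q).factorial * (2 * (2 ^ n * Real.exp (l ^ 2 * n / 2))) :=
    (mul_le_mul_of_nonneg_left (even_count n q) (by positivity)).trans h2
  have h4 : l ^ (2 * q) * ((EvS n q).card : ℝ) ≤ (2 * q).factorial * (2 * Real.exp (l ^ 2 * n / 2)) := by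
    have h2n : (0 : ℝ) < 2 ^ n := by positivity
    refine le_of_mul_le_mul_left ?_ h2n
    calc (2 : ℝ) ^ n * (l ^ (2 * q) * (EvS n q).card) = l ^ (2 * q) * ((2 : ℝ) ^ n * (EvS n q).card) := by ring
      _ ≤ (2 * q).factorial * (2 * (2 ^ n * Real.exp (l ^ 2 * n / 2))) := h3
      _ = _ := by ring
  have h5 : l ^ 2 * n / 2 = q := by
    rw [hl2]
    field_simp
  have h6 : l ^ (2 * q) = (2 * q / n : ℝ) ^ q := by rw [pow_mul, hl2]
  rw [h5, h6] at h4
  have h7 : ((2 * q).factorial : ℝ) ≤ (2 * q : ℝ) ^ (2 * q) := by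
    have := Nat.factorial_le_pow (2 * q)
    exact_mod_cast this
  have h8 : Real.exp (q : ℝ) = Real.exp 1 ^ q := by
    rw [← Real.exp_nat_mul, mul_one]
  have h9 : (0 : ℝ) < (2 * q / n : ℝ) ^ q := by positivity
  refine le_of_mul_le_mul_left ?_ h9
  calc (2 * q / n : ℝ) ^ q * (EvS n q).card ≤ (2 * q).factorial * (2 * Real.exp q) := h4
    _ ≤ (2 * q : ℝ) ^ (2 * q) * (2 * Real.exp q) := mul_le_mul_of_nonneg_right h7 (by positivity)
    _ = (2 * q / n : ℝ) ^ q * (2 * (2 * q * n * Real.exp 1) ^ q) := by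
        rw [h8, pow_mul]
        have : ((2 * q : ℝ) ^ 2) = (2 * q / n) * (2 * q * n) := by field_simp
        rw [this, mul_pow, mul_pow (2 * q * n : ℝ)]
        ring

/-- cancellation in the correlations with an odd exponent, uniformly in the starting point -/
def Ch (f : ℕ → ℝ) (X : ℕ → ℕ → Prop) : Prop := ∀ (n : ℕ) (e : Fin n → ℕ), (∃ h, Odd (e h)) →
  ∀ ε : ℝ, 0 < ε → ∀ᶠ N : ℕ in atTop, ∀ x, X N x →
    |∑ m ∈ Icc 1 N, ∏ h : Fin n, f (x + m + h) ^ e h| ≤ ε * N

theorem corr_le {f : ℕ → ℝ} (hf : ∀ n, |f n| ≤ 1) {X : ℕ → ℕ → Prop} (hC : Ch f X) (n q : ℕ) :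
    ∀ᶠ N : ℕ in atTop, ∀ x, X N x →
      corr (Icc 1 N) (fun m (h : Fin n) => f (x + m + h)) q ≤ N * ((EvS n q).card + 1) := by
  classical
  set D : ℕ := Fintype.card ((Fin q → Fin n) × (Fin q → Fin n)) with hD
  have h1 : ∀ᶠ N : ℕ in atTop, ∀ t : (Fin q → Fin n) × (Fin q → Fin n), t ∉ EvS n q → ∀ x, X N x →
      |∑ m ∈ Icc 1 N, ∏ h : Fin n, f (x + m + h) ^ ct t.1 t.2 h| ≤ 1 / (D + 1) * N := by
    rw [eventually_all]
    intro t
    by_cases ht : t ∈ EvS n q
    · exact Eventually.of_forall fun N h => absurd ht h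
    · have h2 : ∃ h, Odd (ct t.1 t.2 h) := by
        unfold EvS at ht
        simp only [mem_filter, mem_univ, true_and, not_forall, Nat.not_even_iff_odd] at ht
        exact ht
      filter_upwards [hC n (ct t.1 t.2) h2 (1 / (D + 1)) (by positivity)] with N hN _
      exact hN
  filter_upwards [h1] with N hN x hx
  unfold corr
  have e1 : ∑ w : Fin q → Fin n, ∑ w' : Fin q → Fin n,
      |∑ m ∈ Icc 1 N, (∏ i, f (x + m + (w i : Fin n))) * ∏ i, f (x + m + (w' i : Fin n))| =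
      ∑ t : (Fin q → Fin n) × (Fin q → Fin n),
        |∑ m ∈ Icc 1 N, ∏ h : Fin n, f (x + m + h) ^ ct t.1 t.2 h| := by
    rw [Fintype.sum_prod_type]
    refine sum_congr rfl fun w _ => sum_congr rfl fun w' _ => ?_
    congr 1
    refine sum_congr rfl fun m _ => ?_
    exact prod_two (fun h : Fin n => f (x + m + h)) w w'
  rw [e1]
  have e2 : ∀ t : (Fin q → Fin n) × (Fin q → Fin n),
      |∑ m ∈ Icc 1 N, ∏ h : Fin n, f (x + m + h) ^ ct t.1 t.2 h| ≤
        (if t ∈ EvS n q then (N : ℝ) else 0) + 1 / (D + 1) * N := by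
    intro t
    by_cases ht : t ∈ EvS n q
    · rw [if_pos ht]
      have h3 : |∑ m ∈ Icc 1 N, ∏ h : Fin n, f (x + m + h) ^ ct t.1 t.2 h| ≤ N := by
        refine (abs_sum_le_sum_abs _ _).trans ?_
        refine (sum_le_sum (g := fun _ => (1 : ℝ)) fun m _ => ?_).trans ?_
        · rw [abs_prod]
          refine prod_le_one (fun _ _ => abs_nonneg _) fun h _ => ?_
          rw [abs_pow]
          exact pow_le_one₀ (abs_nonneg _) (hf _)
        · simp
      have : 0 ≤ 1 / ((D : ℝ) + 1) * N := by positivity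
      linarith
    · rw [if_neg ht, zero_add]
      exact hN t ht x hx
  refine (sum_le_sum fun t _ => e2 t).trans ?_
  rw [sum_add_distrib, ← sum_filter, sum_const, sum_const, nsmul_eq_mul, nsmul_eq_mul, card_univ,
    filter_mem_eq_inter, univ_inter, ← hD]
  have h4 : (D : ℝ) * (1 / (D + 1) * N) ≤ N := by
    have hN0 : (0 : ℝ) ≤ N := Nat.cast_nonneg _
    have : (D : ℝ) * (1 / (D + 1)) ≤ 1 := by
      rw [mul_one_div, div_le_one (by positivity)]
      linarith
    nlinarith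
  linarith

end Pool.Agent.Q163.ND
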