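import Pool.Agent.Q163.ND.Norm

set_option autoImplicit false

/-!
# Closed spans, long intervals, polynomial phases
-/

namespace Pool.Agent.Q163.ND

open Finset Filter Topology

lemma sum_Icc_range {E : Type*} [AddCommMonoid E] (F : ℕ → E) (N : ℕ) :
    ∑ m ∈ Icc 1 N, F m = ∑ j ∈ range N, F (1 + j) := by
  have h1 : Icc 1 N = Ico 1 (N + 1) := by
    ext m
    rw [mem_Icc, mem_Ico]
    omega
  rw [h1, sum_Ico_eq_sum_range, Nat.add_sub_cancel]

section
variable {X : Type*} [NormedAddCommGroup X] [NormedSpace ℂ X] {f : ℕ → ℝ} {R : ℕ → ℕ → Prop}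
  {V : Set (ℕ → ℂ)} {T : X →L[ℂ] X}

lemma good_zero : Good T f R V 0 := by
  intro ε hε
  refine ⟨0, fun M _ => Eventually.of_forall fun N y _ v o _ => ?_⟩
  have h1 : ∀ m, ‖∑ h ∈ range M, ((f (y + m + h) : ℂ) * v m (o m + h)) • (T^[h]) 0‖ = 0 := by
    intro m
    rw [norm_eq_zero]
    refine sum_eq_zero fun h _ => ?_
    rw [iterate_map_zero, smul_zero]
  rw [sum_congr rfl fun m _ => h1 m, sum_const_zero]
  positivity

lemma good_add {x x' : X} (h1 : Good T f R V x) (h2 : Good T f R V x') : Good T f R V (x + x') := by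
  intro ε hε
  obtain ⟨M1, a1⟩ := h1 (ε / 2) (by positivity)
  obtain ⟨M2, a2⟩ := h2 (ε / 2) (by positivity)
  refine ⟨max M1 M2, fun M hM => ?_⟩
  filter_upwards [a1 M ((le_max_left _ _).trans hM), a2 M ((le_max_right _ _).trans hM)] with
    N b1 b2 y hy v o hv
  have c1 := b1 y hy v o hv
  have c2 := b2 y hy v o hv
  have h3 : ∀ m, ‖∑ h ∈ range M, ((f (y + m + h) : ℂ) * v m (o m + h)) • (T^[h]) (x + x')‖ ≤
      ‖∑ h ∈ range M, ((f (y + m + h) : ℂ) * v m (o m + h)) • (T^[h]) x‖ +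
      ‖∑ h ∈ range M, ((f (y + m + h) : ℂ) * v m (o m + h)) • (T^[h]) x'‖ := by
    intro m
    refine le_trans (le_of_eq ?_) (norm_add_le _ _)
    congr 1
    rw [← sum_add_distrib]
    refine sum_congr rfl fun h _ => ?_
    rw [iterate_map_add, smul_add]
  refine (sum_le_sum fun m _ => h3 m).trans ?_
  rw [sum_add_distrib]
  linarith

lemma iterate_smul (T : X →L[ℂ] X) (h : ℕ) (c : ℂ) (x : X) : (T^[h]) (c • x) = c • (T^[h]) x := by
  induction h with
  | zero => rfl
  | succ h ih => rw [Function.iterate_succ_apply', Function.iterate_succ_apply', ih, map_smul]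

lemma good_smul (c : ℂ) {x : X} (h1 : Good T f R V x) : Good T f R V (c • x) := by
  intro ε hε
  obtain ⟨M1, a1⟩ := h1 (ε / (‖c‖ + 1)) (by positivity)
  refine ⟨M1, fun M hM => ?_⟩
  filter_upwards [a1 M hM] with N b1 y hy v o hv
  have c1 := b1 y hy v o hv
  have h3 : ∀ m, ‖∑ h ∈ range M, ((f (y + m + h) : ℂ) * v m (o m + h)) • (T^[h]) (c • x)‖ =
      ‖c‖ * ‖∑ h ∈ range M, ((f (y + m + h) : ℂ) * v m (o m + h)) • (T^[h]) x‖ := by
    intro m
    rw [← norm_smul, smul_sum]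
    congr 1
    refine sum_congr rfl fun h _ => ?_
    rw [iterate_smul, smul_comm]
  rw [sum_congr rfl fun m _ => h3 m, ← mul_sum]
  calc ‖c‖ * _ ≤ (‖c‖ + 1) * (ε / (‖c‖ + 1) * (M * N)) := by
        refine mul_le_mul (by linarith) c1 (sum_nonneg fun _ _ => norm_nonneg _) (by positivity)
    _ = ε * (M * N) := by
        field_simp

lemma good_close (hf : ∀ n, |f n| ≤ 1) (hT : ‖T‖ ≤ 1) (hV1 : ∀ v ∈ V, ∀ n, ‖v n‖ ≤ 1) {S : Set X}
    (hS : ∀ x ∈ S, Good T f R V x) {x : X} (hx : x ∈ (Submodule.span ℂ S).topologicalClosure) :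
    Good T f R V x := by
  have hspan : ∀ x ∈ Submodule.span ℂ S, Good T f R V x := by
    intro x hx
    induction hx using Submodule.span_induction with
    | mem x h => exact hS x h
    | zero => exact good_zero
    | add x y _ _ h1 h2 => exact good_add h1 h2
    | smul c x _ h => exact good_smul c h
  intro ε hε
  have hx' : x ∈ closure ((Submodule.span ℂ S : Submodule ℂ X) : Set X) := hx
  rw [Metric.mem_closure_iff] at hx'
  obtain ⟨x', hx1, hx2⟩ := hx' (ε / 2) (by positivity)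
  rw [dist_eq_norm] at hx2
  obtain ⟨M1, a1⟩ := hspan x' hx1 (ε / 2) (by positivity)
  refine ⟨M1, fun M hM => ?_⟩
  filter_upwards [a1 M hM] with N b1 y hy v o hv
  have c1 := b1 y hy v o hv
  have h3 : ∀ m, ‖∑ h ∈ range M, ((f (y + m + h) : ℂ) * v m (o m + h)) • (T^[h]) x‖ ≤
      ‖∑ h ∈ range M, ((f (y + m + h) : ℂ) * v m (o m + h)) • (T^[h]) x'‖ + M * (ε / 2) := by
    intro m
    have e1 : ∑ h ∈ range M, ((f (y + m + h) : ℂ) * v m (o m + h)) • (T^[h]) x =
        ∑ h ∈ range M, ((f (y + m + h) : ℂ) * v m (o m + h)) • (T^[h]) x' +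
        ∑ h ∈ range M, ((f (y + m + h) : ℂ) * v m (o m + h)) • (T^[h]) (x - x') := by
      rw [← sum_add_distrib]
      refine sum_congr rfl fun h _ => ?_
      rw [← smul_add, ← iterate_map_add, add_sub_cancel]
    rw [e1]
    refine (norm_add_le _ _).trans (add_le_add le_rfl ?_)
    refine (norm_sum_le _ _).trans ?_
    calc ∑ h ∈ range M, ‖((f (y + m + h) : ℂ) * v m (o m + h)) • (T^[h]) (x - x')‖ ≤
          ∑ _h ∈ range M, ε / 2 := by
          refine sum_le_sum fun h _ => ?_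
          rw [norm_smul, norm_mul, Complex.norm_real]
          have d1 : ‖f (y + m + h)‖ * ‖v m (o m + h)‖ ≤ 1 :=
            mul_le_one₀ (hf _) (norm_nonneg _) (hV1 _ (hv m) _)
          calc _ ≤ 1 * (ε / 2) :=
                mul_le_mul d1 ((iter_le hT h _).trans hx2.le) (norm_nonneg _) zero_le_one
            _ = ε / 2 := one_mul _
      _ = M * (ε / 2) := by rw [sum_const, card_range, nsmul_eq_mul]
  refine (sum_le_sum fun m _ => h3 m).trans ?_
  rw [sum_add_distrib, sum_const, Nat.card_Icc, Nat.add_sub_cancel, nsmul_eq_mul]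
  have : (N : ℝ) * (M * (ε / 2)) = ε / 2 * (M * N) := by ring
  linarith

/-- **Long intervals.** -/
theorem long (hf : ∀ n, |f n| ≤ 1) (hT : ‖T‖ ≤ 1) (hV1 : ∀ v ∈ V, ∀ n, ‖v n‖ ≤ 1) {x : X}
    (hx : Good T f R V x) (ε : ℝ) (hε : 0 < ε) : ∀ᶠ N : ℕ in atTop, ∀ y, R N y → ∀ v ∈ V, ∀ o : ℕ,
      ‖∑ m ∈ Icc 1 N, ((f (y + m) : ℂ) * v (o + m)) • (T^[m]) x‖ ≤ ε * N := by
  obtain ⟨M0, h1⟩ := hx (ε / 2) (by positivity)
  set M := M0 + 1 with hM
  have hMR : (0 : ℝ) < M := by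
    rw [hM]
    positivity
  filter_upwards [h1 M (by omega), tendsto_natCast_atTop_atTop.eventually_ge_atTop
    (2 * M * ‖x‖ / ε)] with N h2 h3 y hy v hv o
  have h4 := h2 y hy (fun _ => v) (fun m => o + m) (fun _ => hv)
  have e1 : ∑ m ∈ Icc 1 N, ((f (y + m) : ℂ) * v (o + m)) • (T^[m]) x =
      ∑ j ∈ range N, ((f (y + (1 + j)) : ℂ) * v (o + (1 + j))) • (T^[1 + j]) x :=
    sum_Icc_range _ _
  have h5 := block_avg (fun j => ((f (y + (1 + j)) : ℂ) * v (o + (1 + j))) • (T^[1 + j]) x) ‖x‖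
    (fun j => by
      rw [norm_smul, norm_mul, Complex.norm_real]
      have d1 : ‖f (y + (1 + j))‖ * ‖v (o + (1 + j))‖ ≤ 1 :=
        mul_le_one₀ (hf _) (norm_nonneg _) (hV1 _ hv _)
      calc _ ≤ 1 * ‖x‖ := mul_le_mul d1 (iter_le hT _ _) (norm_nonneg _) zero_le_one
        _ = ‖x‖ := one_mul _) N M
  have h6 : ∑ j ∈ range N, ‖∑ i ∈ range M, ((f (y + (1 + (j + i))) : ℂ) * v (o + (1 + (j + i)))) •
      (T^[1 + (j + i)]) x‖ ≤ ε / 2 * (M * N) := by
    refine le_trans ?_ h4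
    have e2 : ∑ m ∈ Icc 1 N, ‖∑ h ∈ range M, ((f (y + m + h) : ℂ) * v (o + m + h)) • (T^[h]) x‖ =
        ∑ j ∈ range N, ‖∑ h ∈ range M, ((f (y + (1 + j) + h) : ℂ) * v (o + (1 + j) + h)) • (T^[h]) x‖ :=
      sum_Icc_range _ _
    rw [e2]
    refine sum_le_sum fun j _ => ?_
    have e3 : ∑ i ∈ range M, ((f (y + (1 + (j + i))) : ℂ) * v (o + (1 + (j + i)))) •
        (T^[1 + (j + i)]) x = ∑ i ∈ range M, ((f (y + (1 + j) + i) : ℂ) * v (o + (1 + j) + i)) •
        (T^[(1 + j) + i]) x := by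
      refine sum_congr rfl fun i _ => ?_
      have a1 : y + (1 + (j + i)) = y + (1 + j) + i := by omega
      have a2 : o + (1 + (j + i)) = o + (1 + j) + i := by omega
      have a3 : 1 + (j + i) = (1 + j) + i := by omega
      rw [a1, a2, a3]
    rw [e3, iter_sum T (1 + j) M (fun i => (f (y + (1 + j) + i) : ℂ) * v (o + (1 + j) + i)) x]
    exact iter_le hT _ _
  rw [e1]
  have h7 : (M : ℝ) * ‖∑ j ∈ range N, ((f (y + (1 + j)) : ℂ) * v (o + (1 + j))) • (T^[1 + j]) x‖ ≤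
      M * (ε * N) := by
    refine h5.trans ?_
    rw [div_le_iff₀ hε] at h3
    have : (M : ℝ) * (2 * M * ‖x‖) ≤ M * (N * ε) := mul_le_mul_of_nonneg_left h3 hMR.le
    linarith
  exact le_of_mul_le_mul_left h7 hMR

end

/-- the phase -/
noncomputable def ph (t : ℝ) : ℂ := Complex.exp ((2 * Real.pi * t : ℝ) * Complex.I)

lemma norm_ph (t : ℝ) : ‖ph t‖ = 1 := Complex.norm_exp_ofReal_mul_I _

lemma ph_add (s t : ℝ) : ph (s + t) = ph s * ph t := by
  unfold ph
  rw [← Complex.exp_add]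
  congr 1
  push_cast
  ring

lemma ph_int (z : ℤ) : ph z = 1 := by
  unfold ph
  rw [Complex.exp_eq_one_iff]
  exact ⟨z, by push_cast; ring⟩

lemma ph_near (s t : ℝ) : ‖ph s - ph t‖ ≤ 2 * Real.pi * |s - t| := by
  have h1 : ph s - ph t = ph t * (ph (s - t) - 1) := by
    rw [mul_sub, ← ph_add, mul_one]
    congr 2
    ring
  rw [h1, norm_mul, norm_ph, one_mul]
  unfold ph
  have h2 := Real.norm_exp_I_mul_ofReal_sub_one_le (x := 2 * Real.pi * (s - t))
  rw [mul_comm Complex.I] at h2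
  refine h2.trans (le_of_eq ?_)
  rw [Real.norm_eq_abs, abs_mul, abs_of_pos (by positivity)]

/-- the polynomial phases of bounded degree -/
def PolyPhases (D : ℕ) : Set (ℕ → ℂ) :=
  {v | ∃ Q : Polynomial ℝ, Q.natDegree ≤ D ∧ v = fun n : ℕ => ph (Q.eval (n : ℝ))}

lemma poly_norm (D : ℕ) : ∀ v ∈ PolyPhases D, ∀ n, ‖v n‖ ≤ 1 := by
  rintro v ⟨Q, -, rfl⟩ n
  exact (norm_ph _).le

theorem poly_thin (D : ℕ) : Thin (PolyPhases D) := by
  classical
  intro δ hδ
  set c : ℝ := 2 * Real.pi * (D + 1) / δ + 1 with hc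
  have hc0 : 0 < c := by positivity
  have ev : ∀ᶠ n : ℕ in atTop, (2 * c * (n : ℝ) ^ D) ^ (D + 1) ≤ Real.exp (δ * n) := by
    have h1 : Tendsto (fun y : ℝ => Real.exp (δ * y) / y ^ (D * (D + 1))) atTop atTop := by
      have h2 := (tendsto_exp_mul_div_rpow_atTop ((D * (D + 1) : ℕ) : ℝ) δ hδ)
      refine h2.congr' ?_
      filter_upwards [eventually_gt_atTop 0] with y hy
      rw [Real.rpow_natCast]
    have h3 := (h1.comp tendsto_natCast_atTop_atTop).eventually_ge_atTop ((2 * c) ^ (D + 1))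
    filter_upwards [h3, eventually_ge_atTop 1] with n h4 h5
    have hn : (0 : ℝ) < n := by exact_mod_cast h5
    simp only [Function.comp] at h4
    rw [le_div_iff₀ (by positivity)] at h4
    rw [mul_pow, ← pow_mul]
    exact h4
  filter_upwards [ev, eventually_ge_atTop 1] with n hev hn
  have hnR : (1 : ℝ) ≤ n := by exact_mod_cast hn
  set L : ℕ := ⌈2 * Real.pi * (D + 1) * (n : ℝ) ^ D / δ⌉₊ + 1 with hL
  have hL0 : (0 : ℝ) < L := by
    rw [hL]
    positivity
  have hL1 : 2 * Real.pi * (D + 1) * (n : ℝ) ^ D / δ ≤ L := by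
    rw [hL]
    push_cast
    have := Nat.le_ceil (2 * Real.pi * (D + 1) * (n : ℝ) ^ D / δ)
    linarith
  have hLc : (L : ℝ) ≤ 2 * c * (n : ℝ) ^ D := by
    rw [hL]
    push_cast
    have h1 := (Nat.ceil_lt_add_one (by positivity : 0 ≤ 2 * Real.pi * (D + 1) * (n : ℝ) ^ D / δ)).le
    have h2 : (1 : ℝ) ≤ (n : ℝ) ^ D := one_le_pow₀ hnR
    have h3 : 2 * Real.pi * (D + 1) * (n : ℝ) ^ D / δ = (c - 1) * (n : ℝ) ^ D := by
      rw [hc]
      ring
    have h4 : 1 ≤ c := by
      rw [hc]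
      have : 0 ≤ 2 * Real.pi * (D + 1) / δ := by positivity
      linarith
    nlinarith
  set G : (Fin (D + 1) → Fin L) → (ℕ → ℂ) := fun b h =>
    ph (∑ i : Fin (D + 1), (b i : ℝ) / L * (h : ℝ) ^ (i : ℕ)) with hG
  refine ⟨univ.image G, ?_, ?_, ?_⟩
  · have h1 : ((univ.image G).card : ℝ) ≤ (L : ℝ) ^ (D + 1) := by
      have h2 : (univ.image G).card ≤ L ^ (D + 1) := by
        refine card_image_le.trans ?_
        rw [card_univ, Fintype.card_fun, Fintype.card_fin, Fintype.card_fin]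
      exact_mod_cast h2
    refine h1.trans (le_trans (pow_le_pow_left₀ hL0.le hLc _) hev)
  · intro u hu h
    obtain ⟨b, -, rfl⟩ := mem_image.1 hu
    exact (norm_ph _).le
  · rintro v ⟨Q, hQ, rfl⟩ m
    set P : Polynomial ℝ := Q.comp (Polynomial.X + Polynomial.C (m : ℝ)) with hP
    have hPd : P.natDegree < D + 1 := by
      have h1 : P.natDegree ≤ Q.natDegree * (Polynomial.X + Polynomial.C (m : ℝ)).natDegree :=
        Polynomial.natDegree_comp_le
      rw [Polynomial.natDegree_X_add_C, mul_one] at h1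
      omega
    have hb : ∀ i : Fin (D + 1), ⌊Int.fract (P.coeff i) * L⌋₊ < L := by
      intro i
      rw [Nat.floor_lt (mul_nonneg (Int.fract_nonneg _) hL0.le)]
      calc Int.fract (P.coeff i) * L < 1 * L :=
            mul_lt_mul_of_pos_right (Int.fract_lt_one _) hL0
        _ = L := one_mul _
    set b : Fin (D + 1) → Fin L := fun i => ⟨⌊Int.fract (P.coeff i) * L⌋₊, hb i⟩ with hbdef
    refine ⟨G b, mem_image_of_mem G (mem_univ b), fun h hh => ?_⟩
    have e1 : Q.eval (((m + h : ℕ) : ℝ)) = ∑ i : Fin (D + 1), P.coeff i * (h : ℝ) ^ (i : ℕ) := by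
      have h1 : Q.eval (((m + h : ℕ) : ℝ)) = P.eval (h : ℝ) := by
        rw [hP, Polynomial.eval_comp]
        congr 1
        simp
        ring
      rw [h1, Polynomial.eval_eq_sum_range' hPd, Finset.sum_range]
    have e2 : ∑ i : Fin (D + 1), P.coeff i * (h : ℝ) ^ (i : ℕ) =
        ((∑ i : Fin (D + 1), ⌊P.coeff i⌋ * (h : ℤ) ^ (i : ℕ) : ℤ) : ℝ) +
        ∑ i : Fin (D + 1), Int.fract (P.coeff i) * (h : ℝ) ^ (i : ℕ) := by
      push_cast
      rw [← sum_add_distrib]
      refine sum_congr rfl fun i _ => ?_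
      rw [← add_mul, Int.floor_add_fract]
    show ‖ph (Q.eval (((m + h : ℕ) : ℝ))) - G b h‖ ≤ δ
    rw [e1, e2, ph_add, ph_int, one_mul, hG]
    refine (ph_near _ _).trans ?_
    have h2 : |∑ i : Fin (D + 1), Int.fract (P.coeff i) * (h : ℝ) ^ (i : ℕ) -
        ∑ i : Fin (D + 1), (b i : ℝ) / L * (h : ℝ) ^ (i : ℕ)| ≤ (D + 1) * (1 / L * (n : ℝ) ^ D) := by
      rw [← sum_sub_distrib]
      refine (abs_sum_le_sum_abs _ _).trans ?_
      calc ∑ i : Fin (D + 1), |Int.fract (P.coeff i) * (h : ℝ) ^ (i : ℕ) -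
            (b i : ℝ) / L * (h : ℝ) ^ (i : ℕ)| ≤ ∑ _i : Fin (D + 1), 1 / L * (n : ℝ) ^ D := by
            refine sum_le_sum fun i _ => ?_
            rw [← sub_mul, abs_mul, abs_of_nonneg (by positivity : (0 : ℝ) ≤ (h : ℝ) ^ (i : ℕ))]
            refine mul_le_mul ?_ ?_ (by positivity) (by positivity)
            · have k1 := Nat.floor_le (mul_nonneg (Int.fract_nonneg (P.coeff i)) hL0.le)
              have k2 := Nat.lt_floor_add_one (Int.fract (P.coeff i) * L)
              have k3 : Int.fract (P.coeff i) - (b i : ℝ) / L =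
                  (Int.fract (P.coeff i) * L - (⌊Int.fract (P.coeff i) * L⌋₊ : ℝ)) / L := by
                rw [hbdef]
                field_simp
              rw [k3, abs_div, abs_of_pos hL0]
              refine div_le_div_of_nonneg_right ?_ hL0.le
              rw [abs_le]
              constructor <;> linarith
            · calc (h : ℝ) ^ (i : ℕ) ≤ (n : ℝ) ^ (i : ℕ) :=
                    pow_le_pow_left₀ (by positivity) (by exact_mod_cast hh.le) _
                _ ≤ (n : ℝ) ^ D := pow_le_pow_right₀ hnR (by omega)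
        _ = (D + 1) * (1 / L * (n : ℝ) ^ D) := by
            rw [sum_const, card_univ, Fintype.card_fin, nsmul_eq_mul]
            push_cast
            ring
    calc _ ≤ 2 * Real.pi * ((D + 1) * (1 / L * (n : ℝ) ^ D)) :=
          mul_le_mul_of_nonneg_left h2 (by positivity)
      _ = (2 * Real.pi * (D + 1) * (n : ℝ) ^ D) / L := by ring
      _ ≤ δ := by
          rw [div_le_iff₀ hL0]
          rw [div_le_iff₀ hδ] at hL1
          linarith

end Pool.Agent.Q163.ND
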