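import Mathlib

set_option autoImplicit false

/-!
# Sums of self-adjoint matrices with signs: moments
-/

namespace Pool.Agent.Q163.ND

open Finset

/-- the operators on `ℂᵏ` -/
abbrev Mk (k : ℕ) : Type := EuclideanSpace ℂ (Fin k) →L[ℂ] EuclideanSpace ℂ (Fin k)

/-- the columns -/
noncomputable def hs {k : ℕ} (T : Mk k) : PiLp 2 (fun _ : Fin k => EuclideanSpace ℂ (Fin k)) :=
  WithLp.toLp 2 fun i => T (EuclideanSpace.single i 1)

lemma hs_add {k : ℕ} (A B : Mk k) : hs (A + B) = hs A + hs B := by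
  ext i j
  simp [hs]

lemma hs_smul {k : ℕ} (c : ℂ) (A : Mk k) : hs (c • A) = c • hs A := by
  ext i j
  simp [hs]

lemma hs_zero {k : ℕ} : hs (0 : Mk k) = 0 := by
  ext i j
  simp [hs]

lemma hs_sum {k : ℕ} {ι : Type*} (s : Finset ι) (T : ι → Mk k) : hs (∑ h ∈ s, T h) = ∑ h ∈ s, hs (T h) := by
  classical
  induction s using Finset.induction_on with
  | empty => simpa using hs_zero
  | insert a s ha ih => rw [sum_insert ha, sum_insert ha, hs_add, ih]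

lemma hs_sq {k : ℕ} (T : Mk k) : ‖hs T‖ ^ 2 = ∑ i, ‖T (EuclideanSpace.single i 1)‖ ^ 2 := by
  rw [PiLp.norm_sq_eq_of_L2]
  rfl

lemma hs_le {k : ℕ} (T : Mk k) : ‖hs T‖ ^ 2 ≤ k * ‖T‖ ^ 2 := by
  rw [hs_sq]
  calc ∑ i : Fin k, ‖T (EuclideanSpace.single i 1)‖ ^ 2 ≤ ∑ _i : Fin k, ‖T‖ ^ 2 := by
        refine sum_le_sum fun i _ => ?_
        have h1 := T.le_opNorm (EuclideanSpace.single i (1 : ℂ))
        rw [PiLp.norm_single, norm_one, mul_one] at h1
        exact pow_le_pow_left₀ (norm_nonneg _) h1 2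
    _ = k * ‖T‖ ^ 2 := by simp

lemma le_hs {k : ℕ} (T : Mk k) : ‖T‖ ≤ ‖hs T‖ := by
  refine T.opNorm_le_bound (norm_nonneg _) fun x => ?_
  have h1 : x = ∑ i, x i • EuclideanSpace.single i (1 : ℂ) := by
    have := (EuclideanSpace.basisFun (Fin k) ℂ).sum_repr x
    simpa using this.symm
  have h2 : T x = ∑ i, x i • T (EuclideanSpace.single i (1 : ℂ)) := by
    conv_lhs => rw [h1]
    rw [map_sum]
    exact sum_congr rfl fun i _ => map_smul _ _ _
  have h3 : ‖T x‖ ≤ ∑ i, ‖x i‖ * ‖T (EuclideanSpace.single i (1 : ℂ))‖ := by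
    rw [h2]
    refine (norm_sum_le _ _).trans (sum_le_sum fun i _ => ?_)
    rw [norm_smul]
  have h4 := Finset.sum_mul_sq_le_sq_mul_sq (univ : Finset (Fin k)) (fun i => ‖x i‖)
    (fun i => ‖T (EuclideanSpace.single i (1 : ℂ))‖)
  rw [← hs_sq, ← EuclideanSpace.norm_sq_eq] at h4
  have h5 : ‖T x‖ ^ 2 ≤ (‖hs T‖ * ‖x‖) ^ 2 := by
    calc ‖T x‖ ^ 2 ≤ (∑ i, ‖x i‖ * ‖T (EuclideanSpace.single i (1 : ℂ))‖) ^ 2 :=
          pow_le_pow_left₀ (norm_nonneg _) h3 2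
      _ ≤ ‖x‖ ^ 2 * ‖hs T‖ ^ 2 := h4
      _ = _ := by ring
  exact (abs_le_of_sq_le_sq' h5 (by positivity)).2

/-- powers of a sum -/
lemma sum_pow {R : Type*} [Ring R] [Algebra ℂ R] {n : ℕ} (s : Fin n → ℝ) (A : Fin n → R) (q : ℕ) :
    (∑ h, (s h : ℂ) • A h) ^ q =
      ∑ w : Fin q → Fin n, ((∏ i, s (w i) : ℝ) : ℂ) • (List.ofFn fun i => A (w i)).prod := by
  induction q with
  | zero => simp
  | succ q ih =>
    rw [pow_succ', ih, sum_mul_sum, ← (Fin.consEquiv (fun _ : Fin (q + 1) => Fin n)).sum_comp,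
      Fintype.sum_prod_type]
    refine sum_congr rfl fun h _ => sum_congr rfl fun w _ => ?_
    rw [smul_mul_smul_comm, List.ofFn_succ, List.prod_cons, Fin.prod_univ_succ]
    simp only [Fin.consEquiv, Equiv.coe_fn_mk, Fin.cons_zero, Fin.cons_succ]
    push_cast
    rfl

lemma norm_prod_le {k : ℕ} {n : ℕ} (A : Fin n → Mk k) (B : ℝ) (hB : ∀ h, ‖A h‖ ≤ B) (q : ℕ)
    (w : Fin q → Fin n) : ‖(List.ofFn fun i => A (w i)).prod‖ ≤ B ^ q := by
  induction q with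
  | zero =>
    rw [List.ofFn_zero, List.prod_nil, pow_zero]
    exact ContinuousLinearMap.norm_id_le
  | succ q ih =>
    rw [List.ofFn_succ, List.prod_cons, pow_succ']
    refine (norm_mul_le _ _).trans ?_
    refine mul_le_mul (hB _) (ih fun i => w i.succ) (norm_nonneg _) ((norm_nonneg _).trans (hB (w 0)))

/-- powers of self-adjoint sums -/
lemma gen_pow {E : Type*} [NormedRing E] [StarRing E] [CStarRing E] [NormedAlgebra ℂ E]
    [StarModule ℂ E] {n : ℕ} (s : Fin n → ℝ) (A : Fin n → E) (hA : ∀ h, IsSelfAdjoint (A h)) (j : ℕ) :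
    ‖(∑ h, (s h : ℂ) • A h) ^ 2 ^ j‖ = ‖∑ h, (s h : ℂ) • A h‖ ^ 2 ^ j := by
  have h1 : IsSelfAdjoint (∑ h, (s h : ℂ) • A h) :=
    isSelfAdjoint_sum univ fun h _ => IsSelfAdjoint.smul (Complex.conj_ofReal _) (hA h)
  exact h1.norm_pow_two_pow j

/-- the correlations of the sign vectors -/
noncomputable def corr {n : ℕ} {ι : Type*} (S : Finset ι) (s : ι → Fin n → ℝ) (q : ℕ) : ℝ :=
  ∑ w : Fin q → Fin n, ∑ w' : Fin q → Fin n,
    |∑ m ∈ S, (∏ i, s m (w i)) * ∏ i, s m (w' i)|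

/-- **Moments.** -/
theorem moments {k n : ℕ} {ι : Type*} (S : Finset ι) (s : ι → Fin n → ℝ)
    (A : Fin n → Mk k) (hA : ∀ h, IsSelfAdjoint (A h)) (B : ℝ) (hB : ∀ h, ‖A h‖ ≤ B) (j : ℕ) :
    ∑ m ∈ S, ‖∑ h, (s m h : ℂ) • A h‖ ^ (2 * 2 ^ j) ≤ k * B ^ (2 * 2 ^ j) * corr S s (2 ^ j) := by
  set q := 2 ^ j with hq
  set c : (Fin q → Fin n) → PiLp 2 (fun _ : Fin k => EuclideanSpace ℂ (Fin k)) :=
    fun w => hs (List.ofFn fun i => A (w i)).prod with hc
  have hcn : ∀ w w', ‖c w‖ * ‖c w'‖ ≤ k * B ^ (2 * q) := by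
    intro w w'
    have h1 : ∀ w, ‖c w‖ ≤ Real.sqrt (k * (B ^ q) ^ 2) := by
      intro w
      refine Real.le_sqrt_of_sq_le ((hs_le _).trans ?_)
      refine mul_le_mul_of_nonneg_left ?_ (Nat.cast_nonneg k)
      exact pow_le_pow_left₀ (norm_nonneg _) (norm_prod_le A B hB q w) 2
    calc ‖c w‖ * ‖c w'‖ ≤ Real.sqrt (k * (B ^ q) ^ 2) * Real.sqrt (k * (B ^ q) ^ 2) :=
          mul_le_mul (h1 w) (h1 w') (norm_nonneg _) (Real.sqrt_nonneg _)
      _ = k * (B ^ q) ^ 2 := Real.mul_self_sqrt (by positivity)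
      _ = k * B ^ (2 * q) := by
          rw [← pow_mul, mul_comm q 2]
  have h1 : ∀ m, ‖∑ h, (s m h : ℂ) • A h‖ ^ (2 * q) ≤
      ∑ w : Fin q → Fin n, ∑ w' : Fin q → Fin n,
        ((∏ i, s m (w i)) * ∏ i, s m (w' i)) * RCLike.re (inner ℂ (c w) (c w')) := by
    intro m
    set X := ∑ h, (s m h : ℂ) • A h with hX
    have hpow : ‖X‖ ^ q = ‖X ^ q‖ := by
      rw [hq]
      exact (gen_pow (s m) A hA j).symm
    have h3 : ‖X‖ ^ (2 * q) ≤ ‖hs (X ^ q)‖ ^ 2 := by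
      rw [mul_comm, pow_mul, hpow]
      exact pow_le_pow_left₀ (norm_nonneg _) (le_hs _) 2
    refine h3.trans (le_of_eq ?_)
    have h4 : hs (X ^ q) = ∑ w : Fin q → Fin n, ((∏ i, s m (w i) : ℝ) : ℂ) • c w := by
      have h5 := Pool.Agent.Q163.ND.sum_pow (R := Mk k) (s m) A q
      rw [hX, h5, hs_sum]
      exact sum_congr rfl fun w _ => hs_smul _ _
    rw [h4, ← inner_self_eq_norm_sq (𝕜 := ℂ), sum_inner, map_sum]
    refine sum_congr rfl fun w _ => ?_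
    rw [inner_sum, map_sum]
    refine sum_congr rfl fun w' _ => ?_
    rw [inner_smul_left, inner_smul_right, Complex.conj_ofReal, ← mul_assoc, ← Complex.ofReal_mul]
    exact Complex.re_ofReal_mul _ _
  calc ∑ m ∈ S, ‖∑ h, (s m h : ℂ) • A h‖ ^ (2 * q)
      ≤ ∑ m ∈ S, ∑ w : Fin q → Fin n, ∑ w' : Fin q → Fin n,
        ((∏ i, s m (w i)) * ∏ i, s m (w' i)) * RCLike.re (inner ℂ (c w) (c w')) :=
        sum_le_sum fun m _ => h1 m
    _ = ∑ w : Fin q → Fin n, ∑ w' : Fin q → Fin n,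
        (∑ m ∈ S, (∏ i, s m (w i)) * ∏ i, s m (w' i)) * RCLike.re (inner ℂ (c w) (c w')) := by
        rw [sum_comm]
        refine sum_congr rfl fun w _ => ?_
        rw [sum_comm]
        exact sum_congr rfl fun w' _ => (sum_mul _ _ _).symm
    _ ≤ ∑ w : Fin q → Fin n, ∑ w' : Fin q → Fin n,
        |∑ m ∈ S, (∏ i, s m (w i)) * ∏ i, s m (w' i)| * (k * B ^ (2 * q)) := by
        refine sum_le_sum fun w _ => sum_le_sum fun w' _ => ?_
        refine (le_abs_self _).trans ?_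
        rw [abs_mul]
        refine mul_le_mul_of_nonneg_left ?_ (abs_nonneg _)
        refine le_trans ?_ (hcn w w')
        exact (RCLike.abs_re_le_norm _).trans (norm_inner_le_norm _ _)
    _ = k * B ^ (2 * q) * corr S s q := by
        unfold corr
        rw [mul_sum]
        refine sum_congr rfl fun w _ => ?_
        rw [mul_sum]
        exact sum_congr rfl fun w' _ => by ring

end Pool.Agent.Q163.ND
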