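import Pool.Agent.Q163.ND.Win

set_option autoImplicit false

/-!
# Norm disjointness for contractions of zero entropy
-/

namespace Pool.Agent.Q163.ND

open Finset Filter Topology

/-- blocks -/
lemma block_avg {E : Type*} [NormedAddCommGroup E] [NormedSpace ℂ E] (g : ℕ → E) (K : ℝ) (hg : ∀ h, ‖g h‖ ≤ K)
    (M n : ℕ) : n * ‖∑ h ∈ range M, g h‖ ≤ ∑ j ∈ range M, ‖∑ i ∈ range n, g (j + i)‖ + n * n * K := by
  have hK : 0 ≤ K := (norm_nonneg _).trans (hg 0)
  have h1 : ∀ i, ‖∑ h ∈ range M, g h - ∑ j ∈ range M, g (j + i)‖ ≤ 2 * i * K := by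
    intro i
    have e1 : ∑ j ∈ range M, g (j + i) = ∑ j ∈ range M, g j + ∑ j ∈ range i, g (M + j) -
        ∑ j ∈ range i, g j := by
      have a1 := sum_range_add g M i
      have a2 := sum_range_add g i M
      rw [add_comm i M, a1] at a2
      have a3 : ∑ j ∈ range M, g (j + i) = ∑ x ∈ range M, g (i + x) :=
        sum_congr rfl fun j _ => by rw [add_comm]
      rw [a3, a2]
      abel
    have e2 : ∑ h ∈ range M, g h - ∑ j ∈ range M, g (j + i) =
        ∑ j ∈ range i, g j - ∑ j ∈ range i, g (M + j) := by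
      rw [e1]
      abel
    rw [e2]
    refine (norm_sub_le _ _).trans ?_
    have b1 : ‖∑ j ∈ range i, g j‖ ≤ i * K := by
      refine (norm_sum_le _ _).trans ((sum_le_sum fun j _ => hg j).trans ?_)
      rw [sum_const, card_range, nsmul_eq_mul]
    have b2 : ‖∑ j ∈ range i, g (M + j)‖ ≤ i * K := by
      refine (norm_sum_le _ _).trans ((sum_le_sum fun j _ => hg (M + j)).trans ?_)
      rw [sum_const, card_range, nsmul_eq_mul]
    linarith
  have h2 : (n : ℝ) * ‖∑ h ∈ range M, g h‖ = ‖∑ _i ∈ range n, ∑ h ∈ range M, g h‖ := by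
    rw [sum_const, card_range, ← Nat.cast_smul_eq_nsmul ℂ, norm_smul, Complex.norm_natCast]
  have h3 : ∑ _i ∈ range n, ∑ h ∈ range M, g h = ∑ j ∈ range M, ∑ i ∈ range n, g (j + i) +
      ∑ i ∈ range n, (∑ h ∈ range M, g h - ∑ j ∈ range M, g (j + i)) := by
    rw [sum_comm (s := range M), ← sum_add_distrib]
    exact sum_congr rfl fun i _ => by abel
  rw [h2, h3]
  refine (norm_add_le _ _).trans (add_le_add (norm_sum_le _ _) ?_)
  refine (norm_sum_le _ _).trans ?_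
  calc ∑ i ∈ range n, ‖∑ h ∈ range M, g h - ∑ j ∈ range M, g (j + i)‖
      ≤ ∑ i ∈ range n, 2 * (i : ℝ) * K := sum_le_sum fun i _ => h1 i
    _ = (∑ i ∈ range n, (i : ℝ)) * 2 * K := by
        rw [sum_mul, sum_mul]
        exact sum_congr rfl fun i _ => by ring
    _ ≤ n * n * K := by
        refine mul_le_mul_of_nonneg_right ?_ hK
        have h4 := Finset.sum_range_id_mul_two n
        have h5 : ((∑ i ∈ range n, i) * 2 : ℕ) ≤ n * n := by
          rw [h4]
          exact Nat.mul_le_mul_left n (Nat.sub_le n 1)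
        have h6 : (((∑ i ∈ range n, i) * 2 : ℕ) : ℝ) ≤ ((n * n : ℕ) : ℝ) := by exact_mod_cast h5
        push_cast at h6
        exact h6

/-- `φ : X → M_k` and `ψ : M_k → Y` are linear contractions and the mean of the
`‖ψ (φ a) - π a‖` over the `a = Tʰ(x)`, `h < n`, is at most `δ` -/
def Approx {X Y : Type*} [NormedAddCommGroup X] [NormedSpace ℂ X] [NormedAddCommGroup Y]
    [NormedSpace ℂ Y] (π : X → Y) (T : X → X) (x : X) (n : ℕ) (δ : ℝ) (k : ℕ) : Prop :=
  ∃ (φ : X →ₗ[ℂ] Mk k) (ψ : Mk k →ₗ[ℂ] Y), (∀ a, ‖φ a‖ ≤ ‖a‖) ∧ (∀ b, ‖ψ b‖ ≤ ‖b‖) ∧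
    ∑ h ∈ range n, ‖ψ (φ ((T^[h]) x)) - π ((T^[h]) x)‖ ≤ δ * n

/-- zero entropy of the orbit of `x` -/
def ZeroRank {X Y : Type*} [NormedAddCommGroup X] [NormedSpace ℂ X] [NormedAddCommGroup Y]
    [NormedSpace ℂ Y] (π : X → Y) (T : X → X) (x : X) : Prop :=
  ∀ ε : ℝ, 0 < ε → ∃ᶠ n : ℕ in atTop, ∃ k : ℕ, (k : ℝ) ≤ Real.exp (ε * n) ∧ Approx π T x n ε k

/-- sets of sequences of zero entropy -/
def Thin (V : Set (ℕ → ℂ)) : Prop := ∀ δ : ℝ, 0 < δ → ∀ᶠ n : ℕ in atTop, ∃ U : Finset (ℕ → ℂ),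
  (U.card : ℝ) ≤ Real.exp (δ * n) ∧ (∀ u ∈ U, ∀ h, ‖u h‖ ≤ 1) ∧
    ∀ v ∈ V, ∀ m, ∃ u ∈ U, ∀ h < n, ‖v (m + h) - u h‖ ≤ δ

lemma iter_le {X : Type*} [NormedAddCommGroup X] [NormedSpace ℂ X] {T : X →L[ℂ] X} (hT : ‖T‖ ≤ 1)
    (j : ℕ) (x : X) : ‖(T^[j]) x‖ ≤ ‖x‖ := by
  induction j with
  | zero => exact le_rfl
  | succ j ih =>
    rw [Function.iterate_succ_apply']
    refine (T.le_opNorm _).trans ?_
    calc ‖T‖ * ‖(T^[j]) x‖ ≤ 1 * ‖x‖ := mul_le_mul hT ih (norm_nonneg _) zero_le_one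
      _ = ‖x‖ := one_mul _

lemma iter_sum {X : Type*} [NormedAddCommGroup X] [NormedSpace ℂ X] (T : X →L[ℂ] X)
    (j n : ℕ) (c : ℕ → ℂ) (x : X) :
    ∑ i ∈ range n, c i • (T^[j + i]) x = (T^[j]) (∑ i ∈ range n, c i • (T^[i]) x) := by
  induction j with
  | zero => simp
  | succ j ih =>
    rw [Function.iterate_succ_apply', ← ih, map_sum]
    refine sum_congr rfl fun i _ => ?_
    rw [map_smul, add_right_comm, Function.iterate_succ_apply']

/-- disjointness in windows and in long intervals -/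
def Good {X : Type*} [NormedAddCommGroup X] [NormedSpace ℂ X] (T : X → X) (f : ℕ → ℝ)
    (R : ℕ → ℕ → Prop) (V : Set (ℕ → ℂ)) (x : X) : Prop :=
  ∀ ε : ℝ, 0 < ε → ∃ M0 : ℕ, ∀ M : ℕ, M0 ≤ M → ∀ᶠ N : ℕ in atTop, ∀ y, R N y →
    ∀ (v : ℕ → ℕ → ℂ) (o : ℕ → ℕ), (∀ m, v m ∈ V) →
      ∑ m ∈ Icc 1 N, ‖∑ h ∈ range M, ((f (y + m + h) : ℂ) * v m (o m + h)) • (T^[h]) x‖ ≤ ε * (M * N)

theorem good {X Y : Type*} [NormedAddCommGroup X] [NormedSpace ℂ X] [NormedAddCommGroup Y]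
    [NormedSpace ℂ Y] {f : ℕ → ℝ} (hf : ∀ n, |f n| ≤ 1) {R R' : ℕ → ℕ → Prop}
    (hR : ∀ j : ℕ, ∀ᶠ N : ℕ in atTop, ∀ y, R N y → R' N (y + j)) (hC : Ch f R')
    (T : X →L[ℂ] X) (hT : ‖T‖ ≤ 1) (p : X →ₗᵢ[ℂ] Y) (x : X) (hx : ZeroRank p T x)
    (V : Set (ℕ → ℂ)) (hV1 : ∀ v ∈ V, ∀ n, ‖v n‖ ≤ 1) (hV : Thin V) : Good T f R V x := by
  classical
  intro ε hε
  set K : ℝ := ‖x‖ + 1 with hK
  have hK0 : 0 < K := by positivity
  have hxK : ‖x‖ ≤ K := by linarith
  obtain ⟨δ, hδ, n0, hn01, hwin⟩ := win hf hC K (ε / 8) hK0 (by positivity)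
  set e1 : ℝ := min δ (ε / 8) with he1
  have he1p : 0 < e1 := by positivity
  set d1 : ℝ := min δ (ε / (8 * K)) with hd1
  have hd1p : 0 < d1 := by positivity
  obtain ⟨n, ⟨k, hk, φ, ψ, hφ, hψ, happ⟩, ⟨U, hU1, hU2, hU3⟩, hn⟩ :=
    ((hx e1 he1p).and_eventually ((hV d1 hd1p).and (eventually_ge_atTop n0))).exists
  have hn1 : 1 ≤ n := hn01.trans hn
  have hnR : (0 : ℝ) < n := by exact_mod_cast hn1
  obtain ⟨M0, hM0⟩ := exists_nat_ge (2 * n * K / ε + 1)
  refine ⟨M0, fun M hM => ?_⟩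
  have hMR : 2 * n * K / ε + 1 ≤ M := hM0.trans (by exact_mod_cast hM)
  have hMpos : (0 : ℝ) < M := by
    have : 0 ≤ 2 * n * K / ε := by positivity
    linarith
  have hMn : n * K ≤ ε / 2 * M := by
    have h1 : 2 * n * K / ε ≤ M := by linarith
    rw [div_le_iff₀ hε] at h1
    linarith
  have hsh : ∀ᶠ N : ℕ in atTop, ∀ j ∈ range M, ∀ y, R N y → R' N (y + j) := by
    rw [eventually_all_finset]
    exact fun j _ => hR j
  filter_upwards [hwin n hn, hsh] with N h1 h2 y hy v o hv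
  have hN0 : (0 : ℝ) ≤ N := Nat.cast_nonneg _
  -- the family of matrices
  set F : (ℕ → ℂ) → (Fin n → Mk k) := fun u h => u h • φ ((T^[h]) x) with hF
  have hFn : ∀ A ∈ U.image F, ∀ h, ‖A h‖ ≤ K := by
    intro A hA h
    obtain ⟨u, hu, rfl⟩ := mem_image.1 hA
    rw [hF]
    simp only
    rw [norm_smul]
    calc ‖u h‖ * ‖φ ((T^[(h : ℕ)]) x)‖ ≤ 1 * K :=
          mul_le_mul (hU2 u hu h) (((hφ _).trans (iter_le hT _ _)).trans hxK) (norm_nonneg _)
            zero_le_one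
      _ = K := one_mul _
  have hcard : ((U.image F).card : ℝ) ≤ Real.exp (δ * n) := by
    have a1 : ((U.image F).card : ℝ) ≤ U.card := by exact_mod_cast card_image_le
    refine a1.trans (hU1.trans (Real.exp_le_exp.2 ?_))
    exact mul_le_mul_of_nonneg_right (min_le_left _ _) hnR.le
  have hkk : (k : ℝ) ≤ Real.exp (δ * n) := by
    refine hk.trans (Real.exp_le_exp.2 ?_)
    exact mul_le_mul_of_nonneg_right (min_le_left _ _) hnR.le
  -- one short window
  have hshort : ∀ (z : ℕ) (w : ℕ → ℂ) (u : ℕ → ℂ), u ∈ U → (∀ h < n, ‖w h - u h‖ ≤ d1) →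
      ‖∑ i ∈ range n, ((f (z + i) : ℂ) * w i) • (T^[i]) x‖ ≤
        ‖∑ h : Fin n, (f (z + h) : ℂ) • F u h‖ + ε / 4 * n := by
    intro z w u hu hw
    have hfz : ∀ i, ‖(f i : ℂ)‖ ≤ 1 := fun i => by
      rw [Complex.norm_real]
      exact hf i
    have b1 : ∑ i ∈ range n, ((f (z + i) : ℂ) * w i) • (T^[i]) x =
        ∑ i ∈ range n, ((f (z + i) : ℂ) * u i) • (T^[i]) x +
        ∑ i ∈ range n, ((f (z + i) : ℂ) * (w i - u i)) • (T^[i]) x := by
      rw [← sum_add_distrib]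
      refine sum_congr rfl fun i _ => ?_
      rw [← add_smul]
      congr 1
      ring
    have b2 : ‖∑ i ∈ range n, ((f (z + i) : ℂ) * (w i - u i)) • (T^[i]) x‖ ≤ ε / 8 * n := by
      refine (norm_sum_le _ _).trans ?_
      calc ∑ i ∈ range n, ‖((f (z + i) : ℂ) * (w i - u i)) • (T^[i]) x‖ ≤
            ∑ _i ∈ range n, 1 * (ε / (8 * K)) * K := by
            refine sum_le_sum fun i hi => ?_
            rw [norm_smul, norm_mul]
            have c1 := (hw i (mem_range.1 hi)).trans (min_le_right δ (ε / (8 * K)))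
            have c2 := (iter_le hT i x).trans hxK
            have c3 := hfz (z + i)
            gcongr
        _ = ε / 8 * n := by
            rw [sum_const, card_range, nsmul_eq_mul]
            field_simp
    have b3 : ‖∑ i ∈ range n, ((f (z + i) : ℂ) * u i) • (T^[i]) x‖ ≤
        ‖∑ h : Fin n, (f (z + h) : ℂ) • F u h‖ + ε / 8 * n := by
      have c1 : ‖∑ i ∈ range n, ((f (z + i) : ℂ) * u i) • (T^[i]) x‖ =
          ‖∑ i ∈ range n, ((f (z + i) : ℂ) * u i) • p ((T^[i]) x)‖ := by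
        rw [← p.norm_map, map_sum]
        congr 1
        exact sum_congr rfl fun i _ => map_smul p _ _
      have c2 : ∑ i ∈ range n, ((f (z + i) : ℂ) * u i) • p ((T^[i]) x) =
          ψ (∑ h : Fin n, (f (z + h) : ℂ) • F u h) -
          ∑ i ∈ range n, ((f (z + i) : ℂ) * u i) • (ψ (φ ((T^[i]) x)) - p ((T^[i]) x)) := by
        rw [Finset.sum_fin_eq_sum_range, map_sum, ← sum_sub_distrib]
        refine sum_congr rfl fun i hi => ?_
        rw [dif_pos (mem_range.1 hi), hF]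
        simp only
        rw [smul_smul, map_smul, smul_sub, sub_sub_cancel]
      rw [c1, c2]
      refine (norm_sub_le _ _).trans (add_le_add (hψ _) ?_)
      refine (norm_sum_le _ _).trans ?_
      calc ∑ i ∈ range n, ‖((f (z + i) : ℂ) * u i) • (ψ (φ ((T^[i]) x)) - p ((T^[i]) x))‖ ≤
            ∑ i ∈ range n, ‖ψ (φ ((T^[i]) x)) - p ((T^[i]) x)‖ := by
            refine sum_le_sum fun i _ => ?_
            rw [norm_smul, norm_mul]
            have d1 : ‖(f (z + i) : ℂ)‖ * ‖u i‖ ≤ 1 :=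
              mul_le_one₀ (hfz _) (norm_nonneg _) (hU2 u hu i)
            calc _ ≤ 1 * ‖ψ (φ ((T^[i]) x)) - p ((T^[i]) x)‖ :=
                  mul_le_mul_of_nonneg_right d1 (norm_nonneg _)
              _ = _ := one_mul _
        _ ≤ e1 * n := happ
        _ ≤ ε / 8 * n := mul_le_mul_of_nonneg_right (min_le_right _ _) hnR.le
    rw [b1]
    refine (norm_add_le _ _).trans ?_
    linarith
  -- the choice of the approximations
  have hch : ∀ m j : ℕ, ∃ u ∈ U, ∀ h < n, ‖v m (o m + j + h) - u h‖ ≤ d1 := fun m j =>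
    hU3 (v m) (hv m) (o m + j)
  choose u hu hu2 using hch
  have hblk : ∀ m, ‖∑ h ∈ range M, ((f (y + m + h) : ℂ) * v m (o m + h)) • (T^[h]) x‖ ≤
      (∑ j ∈ range M, (‖∑ h : Fin n, (f (y + j + m + h) : ℂ) • F (u m j) h‖ + ε / 4 * n)) / n +
        n * K := by
    intro m
    have b1 := block_avg (fun h => ((f (y + m + h) : ℂ) * v m (o m + h)) • (T^[h]) x) K (fun h => by
      rw [norm_smul, norm_mul, Complex.norm_real]
      have c1 : ‖f (y + m + h)‖ * ‖v m (o m + h)‖ ≤ 1 :=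
        mul_le_one₀ (hf _) (norm_nonneg _) (hV1 _ (hv m) _)
      calc _ ≤ 1 * K := mul_le_mul c1 ((iter_le hT h x).trans hxK) (norm_nonneg _) zero_le_one
        _ = K := one_mul _) M n
    have b2 : ∀ j ∈ range M, ‖∑ i ∈ range n, ((f (y + m + (j + i)) : ℂ) * v m (o m + (j + i))) •
        (T^[j + i]) x‖ ≤ ‖∑ h : Fin n, (f (y + j + m + h) : ℂ) • F (u m j) h‖ + ε / 4 * n := by
      intro j _
      rw [iter_sum T j n (fun i => (f (y + m + (j + i)) : ℂ) * v m (o m + (j + i))) x]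
      refine (iter_le hT j _).trans ?_
      refine le_trans (le_of_eq ?_) (hshort (y + j + m) (fun i => v m (o m + j + i)) (u m j) (hu m j)
        (hu2 m j))
      congr 1
      refine sum_congr rfl fun i _ => ?_
      have a1 : y + m + (j + i) = y + j + m + i := by omega
      have a2 : o m + (j + i) = o m + j + i := by omega
      rw [a1, a2]
    have b3 := b1.trans (add_le_add_left (sum_le_sum b2) _)
    have b4 : (∑ j ∈ range M, (‖∑ h : Fin n, (f (y + j + m + h) : ℂ) • F (u m j) h‖ + ε / 4 * n)) / n +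
        n * K = (∑ j ∈ range M, (‖∑ h : Fin n, (f (y + j + m + h) : ℂ) • F (u m j) h‖ + ε / 4 * n) +
          n * n * K) / n := by
      rw [add_div]
      congr 1
      field_simp
    rw [b4, le_div_iff₀ hnR, mul_comm]
    exact b3
  refine (sum_le_sum fun m _ => hblk m).trans ?_
  rw [sum_add_distrib, ← sum_div, sum_comm, sum_const, Nat.card_Icc, Nat.add_sub_cancel,
    nsmul_eq_mul]
  have hj : ∀ j ∈ range M, ∑ m ∈ Icc 1 N, (‖∑ h : Fin n, (f (y + j + m + h) : ℂ) • F (u m j) h‖ +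
      ε / 4 * n) ≤ ε / 2 * n * N := by
    intro j hj
    rw [sum_add_distrib, sum_const, Nat.card_Icc, Nat.add_sub_cancel, nsmul_eq_mul]
    have c1 := h1 (y + j) (h2 j hj y hy) k (U.image F) hkk hcard hFn (fun m => F (u m j))
      (fun m => mem_image_of_mem F (hu m j))
    have : 0 ≤ ε * n * N := by positivity
    linarith
  have hsum := sum_le_sum hj
  rw [sum_const, card_range, nsmul_eq_mul] at hsum
  calc _ ≤ (M * (ε / 2 * n * N)) / n + N * (n * K) :=
        add_le_add (div_le_div_of_nonneg_right hsum hnR.le) le_rfl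
    _ = ε / 2 * (M * N) + N * (n * K) := by
        field_simp
    _ ≤ ε / 2 * (M * N) + N * (ε / 2 * M) := by
        have := mul_le_mul_of_nonneg_left hMn hN0
        linarith
    _ = ε * (M * N) := by ring

end Pool.Agent.Q163.ND
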