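import Pool.Agent.Q163.ND.Even

set_option autoImplicit false

/-!
# Windows: families of matrices of subexponential size
-/

namespace Pool.Agent.Q163.ND

open Finset Filter Topology

lemma le_one_add_pow {z : ℝ} (hz : 0 ≤ z) {r : ℕ} (hr : 1 ≤ r) : z ≤ 1 + z ^ r := by
  rcases le_or_gt z 1 with h | h
  · have : 0 ≤ z ^ r := pow_nonneg hz r
    linarith
  · have := le_self_pow₀ h.le (by omega : r ≠ 0)
    linarith

lemma two_pow_near {y : ℝ} (hy : 1 ≤ y) : ∃ j : ℕ, y / 2 < (2 ^ j : ℕ) ∧ ((2 ^ j : ℕ) : ℝ) ≤ y := by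
  obtain ⟨j, h1, h2⟩ := exists_nat_pow_near hy (by norm_num : (1 : ℝ) < 2)
  refine ⟨j, ?_, ?_⟩
  · rw [pow_succ] at h2
    push_cast
    linarith
  · push_cast
    exact h1

/-- self-adjoint families -/
theorem winsa {f : ℕ → ℝ} (hf : ∀ n, |f n| ≤ 1) {X : ℕ → ℕ → Prop} (hC : Ch f X) (B η : ℝ)
    (hB : 0 < B) (hη : 0 < η) : ∃ δ : ℝ, 0 < δ ∧ ∃ n0 : ℕ, 1 ≤ n0 ∧ ∀ n : ℕ, n0 ≤ n →
      ∀ᶠ N : ℕ in atTop, ∀ x, X N x → ∀ (k : ℕ) (V : Finset (Fin n → Mk k)),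
        (k : ℝ) ≤ Real.exp (δ * n) → (V.card : ℝ) ≤ Real.exp (δ * n) →
        (∀ A ∈ V, ∀ h, IsSelfAdjoint (A h)) → (∀ A ∈ V, ∀ h, ‖A h‖ ≤ B) →
        ∀ c : ℕ → (Fin n → Mk k), (∀ m, c m ∈ V) →
          ∑ m ∈ Icc 1 N, ‖∑ h : Fin n, (f (x + m + h) : ℂ) • c m h‖ ≤ 2 * η * n * N := by
  classical
  set c0 : ℝ := η ^ 2 / (2 * Real.exp 1 ^ 2 * B ^ 2) with hc0
  have hc0p : 0 < c0 := by positivity
  obtain ⟨n0, hn0⟩ := exists_nat_ge (8 / c0)
  refine ⟨c0 / 8, by positivity, n0 + 1, by omega, fun n hn => ?_⟩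
  have hn1 : 1 ≤ n := by omega
  have hnR : (0 : ℝ) < n := by exact_mod_cast hn1
  have hn8 : 8 ≤ c0 * n := by
    have h1 : 8 / c0 ≤ n := hn0.trans (by exact_mod_cast (by omega : n0 ≤ n))
    rw [div_le_iff₀ hc0p] at h1
    linarith
  obtain ⟨j, hj1, hj2⟩ := two_pow_near (by linarith : 1 ≤ c0 * n)
  set q : ℕ := 2 ^ j with hq
  have hq1 : 1 ≤ q := Nat.one_le_two_pow
  have hqR : (1 : ℝ) ≤ q := by exact_mod_cast hq1
  set a0 : ℝ := η * n with ha0
  have ha0p : 0 < a0 := by positivity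
  have hEv := even_le n q hn1 hq1
  have hbig : (1 : ℝ) ≤ (2 * q * n * Real.exp 1) ^ q := by
    refine one_le_pow₀ ?_
    have h1 : (1 : ℝ) ≤ n := by exact_mod_cast hn1
    have h2 : (1 : ℝ) ≤ Real.exp 1 := Real.one_le_exp (by norm_num)
    have h3 : (1 : ℝ) ≤ 2 * q := by linarith
    calc (1 : ℝ) = 1 * 1 * 1 := by norm_num
      _ ≤ 2 * q * n * Real.exp 1 := by gcongr
  have hfin : Real.exp (c0 / 8 * n) * (Real.exp (c0 / 8 * n) * B ^ (2 * q) *
      ((EvS n q).card + 1)) ≤ a0 ^ (2 * q) := by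
    have h1 : (EvS n q).card + 1 ≤ 3 * (2 * q * n * Real.exp 1 : ℝ) ^ q := by linarith
    have h2 : (2 * q * n * Real.exp 1 * B ^ 2 : ℝ) ≤ a0 ^ 2 * Real.exp (-1) := by
      have h3 : (2 * Real.exp 1 * B ^ 2 : ℝ) * q ≤ (2 * Real.exp 1 * B ^ 2) * (c0 * n) :=
        mul_le_mul_of_nonneg_left hj2 (by positivity)
      have h4 : (2 * Real.exp 1 * B ^ 2) * (c0 * n) = η ^ 2 * n * Real.exp (-1) := by
        rw [hc0, Real.exp_neg]
        field_simp
      calc (2 * q * n * Real.exp 1 * B ^ 2 : ℝ) = n * ((2 * Real.exp 1 * B ^ 2 : ℝ) * q) := by ring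
        _ ≤ n * (η ^ 2 * n * Real.exp (-1)) := by
            rw [← h4]
            exact mul_le_mul_of_nonneg_left h3 hnR.le
        _ = a0 ^ 2 * Real.exp (-1) := by rw [ha0]; ring
    have h5 : (2 * q * n * Real.exp 1 * B ^ 2 : ℝ) ^ q ≤ (a0 ^ 2) ^ q * Real.exp (-(q : ℝ)) := by
      calc (2 * q * n * Real.exp 1 * B ^ 2 : ℝ) ^ q ≤ (a0 ^ 2 * Real.exp (-1)) ^ q :=
            pow_le_pow_left₀ (by positivity) h2 q
        _ = (a0 ^ 2) ^ q * Real.exp (-(q : ℝ)) := by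
            rw [mul_pow, ← Real.exp_nat_mul]
            congr 2
            ring
    have h6 : 3 * Real.exp (c0 / 8 * n) * Real.exp (c0 / 8 * n) * Real.exp (-(q : ℝ)) ≤ 1 := by
      have h7 : (3 : ℝ) ≤ Real.exp 2 := by
        have := Real.add_one_le_exp (2 : ℝ)
        linarith
      calc 3 * Real.exp (c0 / 8 * n) * Real.exp (c0 / 8 * n) * Real.exp (-(q : ℝ))
          ≤ Real.exp 2 * Real.exp (c0 / 8 * n) * Real.exp (c0 / 8 * n) * Real.exp (-(q : ℝ)) := by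
            gcongr
        _ = Real.exp (2 + c0 / 8 * n + c0 / 8 * n + -(q : ℝ)) := by
            rw [Real.exp_add, Real.exp_add, Real.exp_add]
        _ ≤ 1 := Real.exp_le_one_iff.2 (by linarith)
    calc Real.exp (c0 / 8 * n) * (Real.exp (c0 / 8 * n) * B ^ (2 * q) * ((EvS n q).card + 1))
        ≤ Real.exp (c0 / 8 * n) * (Real.exp (c0 / 8 * n) * B ^ (2 * q) *
            (3 * (2 * q * n * Real.exp 1 : ℝ) ^ q)) := by gcongr
      _ = 3 * Real.exp (c0 / 8 * n) * Real.exp (c0 / 8 * n) *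
            (2 * q * n * Real.exp 1 * B ^ 2 : ℝ) ^ q := by
          rw [mul_pow _ (B ^ 2), ← pow_mul]
          ring
      _ ≤ 3 * Real.exp (c0 / 8 * n) * Real.exp (c0 / 8 * n) *
            ((a0 ^ 2) ^ q * Real.exp (-(q : ℝ))) := by gcongr
      _ = (3 * Real.exp (c0 / 8 * n) * Real.exp (c0 / 8 * n) * Real.exp (-(q : ℝ))) * (a0 ^ 2) ^ q := by
          ring
      _ ≤ 1 * (a0 ^ 2) ^ q := mul_le_mul_of_nonneg_right h6 (by positivity)
      _ = a0 ^ (2 * q) := by rw [one_mul, pow_mul]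
  filter_upwards [corr_le hf hC n q] with N hN x hx k V hkb hVb hVs hVn c hc
  have hN0 : (0 : ℝ) ≤ N := Nat.cast_nonneg _
  have hcor := hN x hx
  have hmom : ∀ A ∈ V, ∑ m ∈ Icc 1 N, ‖∑ h : Fin n, (f (x + m + h) : ℂ) • A h‖ ^ (2 * q) ≤
      k * B ^ (2 * q) * (N * ((EvS n q).card + 1)) := by
    intro A hA
    refine (moments (Icc 1 N) (fun m (h : Fin n) => f (x + m + h)) A (hVs A hA) B (hVn A hA) j).trans ?_
    exact mul_le_mul_of_nonneg_left hcor (by positivity)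
  have h1 : ∀ m, ‖∑ h : Fin n, (f (x + m + h) : ℂ) • c m h‖ ≤
      a0 + a0 / a0 ^ (2 * q) * ∑ A ∈ V, ‖∑ h : Fin n, (f (x + m + h) : ℂ) • A h‖ ^ (2 * q) := by
    intro m
    set y := ‖∑ h : Fin n, (f (x + m + h) : ℂ) • c m h‖ with hy
    have hy0 : 0 ≤ y := norm_nonneg _
    have h2 := le_one_add_pow (div_nonneg hy0 ha0p.le) (by omega : 1 ≤ 2 * q)
    have h3 : y ^ (2 * q) ≤ ∑ A ∈ V, ‖∑ h : Fin n, (f (x + m + h) : ℂ) • A h‖ ^ (2 * q) :=
      single_le_sum (f := fun A : Fin n → Mk k => ‖∑ h : Fin n, (f (x + m + h) : ℂ) • A h‖ ^ (2 * q))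
        (fun _ _ => by positivity) (hc m)
    calc y = a0 * (y / a0) := by field_simp
      _ ≤ a0 * (1 + (y / a0) ^ (2 * q)) := mul_le_mul_of_nonneg_left h2 ha0p.le
      _ = a0 + a0 / a0 ^ (2 * q) * y ^ (2 * q) := by
          rw [div_pow]
          ring
      _ ≤ _ := add_le_add_right (mul_le_mul_of_nonneg_left h3 (by positivity)) _
  calc ∑ m ∈ Icc 1 N, ‖∑ h : Fin n, (f (x + m + h) : ℂ) • c m h‖
      ≤ ∑ m ∈ Icc 1 N, (a0 + a0 / a0 ^ (2 * q) *
          ∑ A ∈ V, ‖∑ h : Fin n, (f (x + m + h) : ℂ) • A h‖ ^ (2 * q)) :=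
        sum_le_sum fun m _ => h1 m
    _ = N * a0 + a0 / a0 ^ (2 * q) *
          ∑ A ∈ V, ∑ m ∈ Icc 1 N, ‖∑ h : Fin n, (f (x + m + h) : ℂ) • A h‖ ^ (2 * q) := by
        rw [sum_add_distrib, sum_const, Nat.card_Icc, Nat.add_sub_cancel, nsmul_eq_mul, ← mul_sum,
          sum_comm]
    _ ≤ N * a0 + a0 / a0 ^ (2 * q) * (V.card * (k * B ^ (2 * q) * (N * ((EvS n q).card + 1)))) := by
        refine add_le_add_right (mul_le_mul_of_nonneg_left ?_ (by positivity)) _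
        refine (sum_le_sum hmom).trans ?_
        rw [sum_const, nsmul_eq_mul]
    _ = N * a0 + N * a0 * ((V.card * (k * B ^ (2 * q) * ((EvS n q).card + 1))) / a0 ^ (2 * q)) := by
        ring
    _ ≤ N * a0 + N * a0 * 1 := by
        refine add_le_add_right (mul_le_mul_of_nonneg_left ?_ (by positivity)) _
        rw [div_le_one (by positivity)]
        refine le_trans ?_ hfin
        gcongr
    _ = 2 * η * n * N := by rw [ha0]; ring

/-- **Windows.** -/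
theorem win {f : ℕ → ℝ} (hf : ∀ n, |f n| ≤ 1) {X : ℕ → ℕ → Prop} (hC : Ch f X) (B η : ℝ)
    (hB : 0 < B) (hη : 0 < η) : ∃ δ : ℝ, 0 < δ ∧ ∃ n0 : ℕ, 1 ≤ n0 ∧ ∀ n : ℕ, n0 ≤ n →
      ∀ᶠ N : ℕ in atTop, ∀ x, X N x → ∀ (k : ℕ) (V : Finset (Fin n → Mk k)),
        (k : ℝ) ≤ Real.exp (δ * n) → (V.card : ℝ) ≤ Real.exp (δ * n) →
        (∀ A ∈ V, ∀ h, ‖A h‖ ≤ B) →
        ∀ c : ℕ → (Fin n → Mk k), (∀ m, c m ∈ V) →
          ∑ m ∈ Icc 1 N, ‖∑ h : Fin n, (f (x + m + h) : ℂ) • c m h‖ ≤ η * n * N := by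
  classical
  obtain ⟨δ, hδ, n0, hn01, h1⟩ := winsa hf hC B (η / 4) hB (by positivity)
  refine ⟨δ, hδ, n0, hn01, fun n hn => ?_⟩
  filter_upwards [h1 n hn] with N hN x hx k V hkb hVb hVn c hc
  set P : (Fin n → Mk k) → (Fin n → Mk k) := fun A h => (realPart (A h) : Mk k) with hP
  set Q : (Fin n → Mk k) → (Fin n → Mk k) := fun A h => (imaginaryPart (A h) : Mk k) with hQ
  have a1 := hN x hx k (V.image P) hkb
    (le_trans (by exact_mod_cast card_image_le) hVb)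
    (fun A hA h => by
      obtain ⟨A', -, rfl⟩ := mem_image.1 hA
      exact (realPart (A' h)).2)
    (fun A hA h => by
      obtain ⟨A', hA', rfl⟩ := mem_image.1 hA
      exact (realPart.norm_le (A' h)).trans (hVn A' hA' h))
    (fun m => P (c m)) (fun m => mem_image_of_mem P (hc m))
  have a2 := hN x hx k (V.image Q) hkb
    (le_trans (by exact_mod_cast card_image_le) hVb)
    (fun A hA h => by
      obtain ⟨A', -, rfl⟩ := mem_image.1 hA
      exact (imaginaryPart (A' h)).2)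
    (fun A hA h => by
      obtain ⟨A', hA', rfl⟩ := mem_image.1 hA
      exact (imaginaryPart.norm_le (A' h)).trans (hVn A' hA' h))
    (fun m => Q (c m)) (fun m => mem_image_of_mem Q (hc m))
  have h2 : ∀ m, ‖∑ h : Fin n, (f (x + m + h) : ℂ) • c m h‖ ≤
      ‖∑ h : Fin n, (f (x + m + h) : ℂ) • P (c m) h‖ +
      ‖∑ h : Fin n, (f (x + m + h) : ℂ) • Q (c m) h‖ := by
    intro m
    have e1 : ∑ h : Fin n, (f (x + m + h) : ℂ) • c m h =
        ∑ h : Fin n, (f (x + m + h) : ℂ) • P (c m) h +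
        Complex.I • ∑ h : Fin n, (f (x + m + h) : ℂ) • Q (c m) h := by
      rw [smul_sum, ← sum_add_distrib]
      refine sum_congr rfl fun h _ => ?_
      have e2 : c m h = P (c m) h + Complex.I • Q (c m) h :=
        (realPart_add_I_smul_imaginaryPart (c m h)).symm
      calc (f (x + m + h) : ℂ) • c m h = (f (x + m + h) : ℂ) • (P (c m) h + Complex.I • Q (c m) h) :=
            congrArg _ e2
        _ = (f (x + m + h) : ℂ) • P (c m) h + (f (x + m + h) : ℂ) • (Complex.I • Q (c m) h) :=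
            smul_add _ _ _
        _ = _ := congrArg _ (smul_comm _ _ _)
    rw [e1]
    refine (norm_add_le _ _).trans ?_
    rw [norm_smul, Complex.norm_I, one_mul]
  refine (sum_le_sum fun m _ => h2 m).trans ?_
  rw [sum_add_distrib]
  linarith

end Pool.Agent.Q163.ND
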